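import Pool.Agent.Q180.SC.Main

/-!
# Sufficient conditions for semisparse subgroups of string C-groups (MP_bc764a_al, Q1: proved)

Let `Γ` be a string C-group of rank `n ≥ 2` and `Σ ≤ Γ`. If for every `φ ∈ Γ` the subgroups
`Σ^φ ∩ Γ_0` and `Σ^φ ∩ Γ_{n-1}` are semisparse in `Γ_0` and `Γ_{n-1}` and
`Σ^φ ∩ Γ_0 Γ_{n-1} = (Σ^φ ∩ Γ_0)(Σ^φ ∩ Γ_{n-1})`, then `Σ` is semisparse in `Γ`.

Proof. For a conjugation invariant family of subgroups `K`, conditions 2 and 3 give by induction on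
`j - i` the strong form `Γ_{>i} ∩ Γ_{<j} K ⊆ (Γ_{>i} ∩ Γ_{<j}) K`. If `g = hσ` with `g ∈ Γ_{>i}`,
`h ∈ Γ_{<j}`, `σ ∈ Σ^φ`, then `(*)` for `σ⁻¹ = g⁻¹h` gives a `d ∈ Γ_0 ∩ Γ_{n-1}` congruent to `g` modulo
`Σ^φ ∩ Γ_0` and to `h` modulo `Σ^φ ∩ Γ_{n-1}`; two applications of the strong form (for `(0, j)` in
`Γ_{n-1}` and for `(i, j)` in `Γ_0`) give the strong form for `Σ`, and it implies conditions 1, 2, 3.
-/

set_option autoImplicit false

open Pointwise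
open Pool.Agent.Q180.SC

namespace Pool.Agent.Results.MP_bc764a_al.SufficientConditions

/-- Q1: the necessary conditions are sufficient. Here the rank is `n = m + 1 ≥ 2`, `Γ` is the whole
group `G = ⟨ρ 0, …, ρ m⟩`, `Γ_0 = ⟨ρ 1, …, ρ m⟩` and `Γ_{n-1} = ⟨ρ 0, …, ρ (m-1)⟩`. -/
theorem result {G : Type*} [Group G] {m : ℕ} (hm : 1 ≤ m) (ρ : Fin (m + 1) → G)
    (hρ : IsStringC ρ) (hgen : par ρ Set.univ = ⊤) (S : Subgroup G)
    (hA : ∀ φ : G, Semisparse (fun i : Fin m => ρ i.succ)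
      (cj S φ ⊓ par (fun i : Fin m => ρ i.succ) Set.univ))
    (hB : ∀ φ : G, Semisparse (fun i : Fin m => ρ i.castSucc)
      (cj S φ ⊓ par (fun i : Fin m => ρ i.castSucc) Set.univ))
    (hC : ∀ φ : G, (cj S φ : Set G) ∩
        ((par (fun i : Fin m => ρ i.succ) Set.univ : Set G) *
          (par (fun i : Fin m => ρ i.castSucc) Set.univ : Set G)) =
      ((cj S φ : Set G) ∩ (par (fun i : Fin m => ρ i.succ) Set.univ : Set G)) *
        ((cj S φ : Set G) ∩ (par (fun i : Fin m => ρ i.castSucc) Set.univ : Set G))) :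
    Semisparse ρ S :=
  main hm hρ hgen S hA hB hC

end Pool.Agent.Results.MP_bc764a_al.SufficientConditions
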